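import Pool.Agent.Helper4.CI.All
import Pool.Agent.Helper4.CI.D12

/-!
# The local topological monodromy conjecture for functions on Newton nondegenerate complete
intersections

Let `V = {g_1 = … = g_k = 0} ⊂ (ℂ^N, 0)` and `f = h|V`.  We assume that the system `(h; g)` is
Newton nondegenerate in the sense of Khovanskii.  If `V` is smooth, `f` is a germ of a function on
`(ℂ^n, 0)`, `n = N - k`: the theorem proves the local topological monodromy conjecture for all germs
which become nondegenerate after a re-embedding of `(ℂ^n, 0)` as a nondegenerate complete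
intersection.  For `k = 0`, `f = h` is any Newton nondegenerate polynomial.  With `k > 0` one obtains
many functions which are degenerate in every coordinate system of `ℂ^n`, for instance

* all irreducible plane curve singularities, whatever the number of their Puiseux pairs
  (the additional coordinates are the maximal contact curves), and irreducible quasi-ordinary
  hypersurface singularities;
* sums `f_1(x) + f_2(y)` of functions which are covered by the theorem;
* the composed functions `P(x, f_1(x), …, f_k(x))`, in particular the products
  `f_1^{m_1} ⋯ f_k^{m_k}`: here `h = P(x, y)` and `g_j = y_j - f_j(x)`.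

There are two hypotheses besides nondegeneracy.

* (C): if a monomial of `h` involves only the variables `x_i`, `i ∈ I`, then so does some monomial
  of each `g_j`.  That is, the toric modifications of `V` used below are isomorphisms outside
  `h = 0`.  This is no restriction on isolated singularities, as `x_i^d` with large `d` may be added to
  the `g_j`.
* (D): `ν(a) = ∑ a_i - ∑_j N_{g_j}(a) > 0` for all `a ≥ 0`, `a ≠ 0`.  It holds (this is part of the
  theorem) if `V` is smooth at the origin and contained in no coordinate hyperplane; in general it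
  says that `V` has canonical singularities.

Let `T` be a simplicial fan refining the dual fans of the Newton polyhedra of `h, g_1, …, g_k`.  The
proper transform of `V` in the toric modification given by `T` is an embedded resolution (up to
quotient singularities), in which the multiplicity of `f` on the divisor of `a` is `N_h(a)` and the
one of the form `ω`, `dg_1 ∧ … ∧ dg_k ∧ ω = dx_1 ∧ … ∧ dx_N`, is `ν(a) - 1`.  By the formulas of
Denef and Loeser, of A'Campo and of Khovanskii (for the Euler characteristic of a nondegenerate
complete intersection in a torus):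

* `ZC (sys h g) T` is the local topological zeta function of `f` at the origin;
* `zetaC (sys h g)` is the monodromy zeta function of `f` at the origin (Varchenko for `k = 0`, Oka
  for `k > 0`);
* for a set `K` of coordinates such that `h` vanishes on `ℂ^K`, and for positive weights `b_i`
  linearly independent over `ℚ`, `zetaSC (sys h g) K b` is, up to a power of `1 - T`, the product of
  the monodromy zeta functions `ζ_{f,x}` of `f` at the points `x` of the slice of `V` given by
  `x_i = c_i t^{b_i}` (`i ∈ K`, `c_i` general constants), `|x_i| < t^{b_i}` (`i ∉ K`), `t → 0`, each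
  with the Euler characteristic of its stratum as exponent.  So its zeros and poles other than `1`
  are eigenvalues of the monodromy of `f` at points arbitrarily near the origin (and `1` is the case
  of an integer `s₀`).

The theorem: adapted fans exist, and every pole `s₀` of `ZC` is an integer, or `exp(2 π i s₀)` is a
zero or a pole of one of these monodromy zeta functions.
-/

namespace Pool.Agent.Results.MP_aa7fc1_ag.CompleteIntersection

open Mono Mono.CI

theorem result {N k : ℕ} (h : MvPolynomial (Fin N) ℂ) (g : Fin k → MvPolynomial (Fin N) ℂ)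
    (hh : h ≠ 0) (h0 : h.coeff 0 = 0) (hg : ∀ j, g j ≠ 0) (hg0 : ∀ j, (g j).coeff 0 = 0)
    (hC : ∀ d ∈ h.support, ∀ j, ∃ e ∈ (g j).support, e.support ⊆ d.support)
    (hD : (LinearIndependent ℂ (fun (j : Fin k) (i : Fin N) => (g j).coeff (Finsupp.single i 1)) ∧
        ∀ i, (MvPowerSeries.X i : MvPowerSeries (Fin N) ℂ) ∉
          Ideal.span (Set.range fun j => (g j : MvPowerSeries (Fin N) ℂ))) ∨
      ∀ a : Fin N → ℤ, (∀ i, 0 ≤ a i) → a ≠ 0 → ∑ j, NA (expo (g j)) a < ∑ i, a i)
    (b : Fin N → ℝ) (hb : ∀ i, 0 < b i) (hlin : LinearIndependent ℚ b) :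
    (∃ T : Fan N, ∀ c, Adapted (sys h g c) T) ∧
    ∀ T : Fan N, (∀ c, Adapted (sys h g c) T) →
      ∀ s₀ : ℂ, (ZC (sys h g) T).denom.eval s₀ = 0 →
      (∃ m : ℤ, s₀ = m) ∨
      ZeroOrPole (zetaC (sys h g)) (Complex.exp (2 * Real.pi * Complex.I * s₀)) ∨
      ∃ K : Finset (Fin N), K.Nonempty ∧
        (∀ d : Fin N →₀ ℕ, (∀ i, i ∉ K → d i = 0) → h.coeff d = 0) ∧
        ZeroOrPole (zetaSC (sys h g) K b) (Complex.exp (2 * Real.pi * Complex.I * s₀)) := by
  -- the landed library (k = 0)
  have hS := spanT
  have hSC := starCoverT
  have hW := wallT hS hSC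
  have hB := bdryT hS hSC
  have hK := kFormula hS hW hB idxPos idxWall idxBdry
  have hL := lowDegree hK
  have hA := algMain hS hSC
  have hBox := boxCount idxPos
  have hPV := pairVanish hL
  have hCK := classKill hPV
  have hLO := laplaceOrthant hS hW hB idxPos idxWall idxBdry
  have hPr := primalAssembly idxPos hS hK hLO dualLattice (sideDual hS hSC) (sidePrimal hS hSC)
  have hSCt := simplexCount idxPos
  have hDF := Mono.dualFan fanOfGeneric genericHeights coneGen
  -- complete intersections
  have hDC := D12h4.dimCay
  have hCC := D12h4.cardColl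
  have hR := R3.scaleRel
  have hPs := R4.psiRel R2.starColour hR
  have hI2 := I12.idxScale I12.idxSmul hR
  have hI4 := I34.volNewColour I34.volCay
  have hI5 := I5.volScale I12.idxSmul I34.volCay hR
  have hV0 := V0.nvolDecomp hSCt
  have hV2 := V2C.cellDecompC V1.cellScale hR
  have hV3 := V3C.cellVolC hV0 hV2 I34.volCay hDC hR
  have hV4 := chi1Sum hV3 hCC
  have hV5 := V5.coefSum hV3 hCC hR cellsEmptyC hI5
  have hM1 := M1.latEq hCC
  have hM2 := M2.cellOf hCC hR
  have hM3 := M3.cellUnique hM1
  have hM4 := M4.cellSumC hV4 hM1 hM2 hM3 hR
  have hS1 := uniqueCompl hV2 cellsEmptyC hCC hR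
  have hS2 := S2.countC hS1 hV5 hCC hR
  have hS3 := S3.complSum hR hPs
  have hS4 := S4.zWC hS2 hS3 hI4 hI5 hR
  have hP2 := P2.coneSum P1.coneExp
  have hP3 := H26P3.jTransfer hP2 hCC hR
  have hP4 := P4.primalC hPr hP3 hI2 hI5 hR hPs
  have hL1 := limitW2 hL volHeight
  have hL3 := L3.limitC hL1 hS4 hP4
  have hL2 := classMain2 hA hBox hS hCK
  exact finalC R1.existsTriC R2.starColour (dualFanC hDF) hL3 zEvalC poleLemmaC hL2 cycloLemma
    hM4 latCNe cellsEmptyC h g hh h0 hg hg0 hC (hD.elim (fun h => smoothD g h.1 h.2) id) b hb hlin

end Pool.Agent.Results.MP_aa7fc1_ag.CompleteIntersection
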