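import Pool.Agent.Helper74.HG.LastB

/-!
# The monodromy conjecture for all polynomials is a conjecture on hypergraph cubics

For a set `H` of subsets of `{1, …, N}` let `F_H = ∑_{e ∈ H} ∏_{i ∈ e} x_i` (`hypC H`).  We prove:
the local topological monodromy conjecture (Q1) for *all* complex polynomials `f ≠ 0`, `f(0) = 0`, in
any number of variables, is equivalent to the conjecture for the countable family of the `F_H`
such that

* every edge `e ∈ H` has two or three vertices (`Cub`),
* every vertex is in at most three edges (`Sub3`),
* the edges with three vertices are pairwise disjoint (`Mat3`),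
* there is a set of vertices which meets every edge in exactly one vertex (`Bip`),

that is, for the polynomials `F = ∑_j l_j g_j`, in which the `g_j` are zero or polynomials in the
other variables of the forms `x y`, `x y + u`, `x y + u + v`, `u`, `u + v`, `u + v + w`, and every
variable is in at most three monomials of `F` and in at most one monomial of degree three (so this is
a conjecture on the ideals generated by such `g_j`, in the sense of Mustata).  More precisely, for
every `f` there is such an `H` with `Q1 (F_H) → Q1 (f)`.

Separate theorems of this file: `unique` (`Z` is unique); `integral` (if `f` has integral coefficients,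
`f ≠ 0`, `f(0) = 0`, there is such an `H` for which `l f + ∑ w_i l_i` (`l`, `w_i`, `l_i` new variables) is
transformed into `F_H` by an automorphism over `ℤ`, and the conclusions of Q1 for `f` and `F_H` are
equivalent, if `Z` exists for `f`); `singular` (the same with `f + ∑ w_i l_i` and without `Bip`, if `f`
is singular at the origin).

## The definitions

No part of the geometry is assumed; the objects of the problem are defined by their known
elementary descriptions.

*The topological zeta function* (`IsZ f Z`).  This is the original definition of Denef and Loeser, as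
a limit `q → 1` of local zeta functions over finite fields, with arcs instead of `p`-adic
integrals.  For a finite field `K` and `f ∈ K[x_1, …, x_n]`, `cntK K f m` is the number of arcs
`x ∈ (t K[t] / (t^(m+1)))^n` with `ord f(x) = m`.  `IsZ f Z` says: there are a finitely generated ring
`A ⊂ ℂ` which contains the coefficients of `f`, and finitely many strata with Euler
characteristics `χ` and numerical data `(N_i, ν_i)`, such that for every homomorphism `ψ` of `A` to a
finite field `K` and all finite extensions `E` of `K`, `q = |E|`, `e = [E : K]`,
`∑_m cntK E (ψ f) m q^(-n m) T^m = ∑ c(e) ∏_i (q - 1) q^(-ν_i) T^(N_i) / (1 - q^(-ν_i) T^(N_i))`, where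
`c(e) = ∑_j m_j a_j^e` and `χ = ∑_j m_j` (the number of points of the stratum over `E`, by
Grothendieck's trace formula); and `Z(s) = ∑ χ ∏_i 1 / (N_i s + ν_i)`.  For an embedded resolution of
`f` with smooth components (spread out over `A`) this is the formula of Denef, and `Z` is the local
topological zeta function of the problem.  `Z` is unique (theorem `unique`); for examples see
`Pool/Agent/Helper74/HG/Check.lean` (`IsZ (w l) (1/(s+1)^2)`).

*The eigenvalues* (`EigC f s₀`).  `DSk ℂ σ` is the ring `D[s]` of differential operators, and
`IsBk ℂ f b` says that `b ∈ ℚ[s]` satisfies `P(s) f^(s+1) = h b(s) f^s` with `P ∈ D[s]`, `h(0) ≠ 0`; the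
identity is required for all `s ∈ ℕ`, which is the same as the formal identity.  These `b` are the
multiples of the local Bernstein-Sato polynomial `b_{f,0}`, whose roots are rational numbers
(Kashiwara).  By the theorem of Malgrange and Kashiwara the numbers `exp (2 π i α)`, `α` a root of
`b_{f,0}`, are the eigenvalues of the Milnor monodromies of `f` at all points of `f = 0` near the
origin, in all degrees.  So `EigC f s₀` (some `s₀ + k`, `k ∈ ℤ`, is a root) says that
`exp (2 π i s₀)` is an eigenvalue of the monodromy near the origin, and `Q1C f` is the conclusion of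
Q1 for `f`.

## The proof

* `f + w l`: the zeta functions over finite fields are computed by counting,
  `ζ'(T) = C² + (q - (q-1) C - C²) ζ(T/q)`, `C = (q-1) q^(-1) T / (1 - q^(-1) T)`; so
  `Z'(s) = 1/(s+1)² + (1 - 1/(s+1)²) Z(s+1)`; and if `b` belongs to `f`, `(s+1) b(s+1)` belongs to
  `f + w l`, by an explicit operator; conversely, up to integral roots, by a residue map.  (These
  two formulas are in the spirit of known results of Artal Bartolo, Cassou-Nogues, Luengo and
  Melle-Hernandez, and of M. Saito; the proofs here are elementary.)
* `l f`: `Z(s)/(s+1)` and `(s+1) b(s)`.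
* Reduction to cubics: `c a b + w l` becomes `a l - c w b + w l` by `w ↦ w + a`, `l ↦ l - c b`.  If one
  starts from `l f`, there is a 2-colouring of the variables for which all monomials have exactly
  one variable of the first colour: `w` gets the colour of `a`, the new `l` the other one.
* From `ℂ` to the algebraic numbers by specialisation (Nullstellensatz), from the algebraic
  numbers to `ℤ` by the norm form, which is the product of the conjugates in separate variables
  after a linear change of variables.
-/

set_option autoImplicit false

open MvPolynomial Pool.Agent.Helper74.HG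

/-- The zeta function is unique. -/
theorem Pool.Agent.Results.MP_aa7fc1_ag.HypergraphCubics.unique (n : ℕ)
    (f : MvPolynomial (Fin n) ℂ) (Z Z' : RatFunc ℂ) (h : IsZ f Z) (h' : IsZ f Z') : Z = Z' :=
  (mainB factsB).2.2.2.2 n f Z Z' h h'

/-- Integral polynomials: `l f` is stably equivalent to a hypergraph cubic. -/
theorem Pool.Agent.Results.MP_aa7fc1_ag.HypergraphCubics.integral (n : ℕ)
    (f : MvPolynomial (Fin n) ℤ) (h0 : f ≠ 0) (hf : constantCoeff f = 0) :
    ∃ (N : ℕ) (H : Finset (Finset (Fin N))), H.Nonempty ∧ Cub H ∧ Sub3 H ∧ Mat3 H ∧ Bip H ∧
      Red (lf f) (hyp H) ∧ (Q1C (hypC H) → Q1C (toC f)) ∧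
      ((∃ Z, IsZ (toC f) Z) → Q1C (toC f) → Q1C (hypC H)) :=
  (mainB factsB).2.2.1 n f h0 hf

/-- Singular integral polynomials are stably equivalent to hypergraph cubics. -/
theorem Pool.Agent.Results.MP_aa7fc1_ag.HypergraphCubics.singular (n : ℕ)
    (f : MvPolynomial (Fin n) ℤ) (h0 : f ≠ 0) (hf : Sing f) :
    ∃ (N : ℕ) (H : Finset (Finset (Fin N))), H.Nonempty ∧ Cub H ∧ Sub3 H ∧ Mat3 H ∧
      Red f (hyp H) ∧ (Q1C (hypC H) → Q1C (toC f)) ∧
      ((∃ Z, IsZ (toC f) Z) → Q1C (toC f) → Q1C (hypC H)) :=
  (mainB factsB).2.2.2.1 n f h0 hf

theorem Pool.Agent.Results.MP_aa7fc1_ag.HypergraphCubics.result :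
    -- Q1 for all polynomials is equivalent to Q1 for hypergraph cubics
    ((∀ (n : ℕ) (f : MvPolynomial (Fin n) ℂ), f ≠ 0 → constantCoeff f = 0 → Q1C f) ↔
      ∀ (N : ℕ) (H : Finset (Finset (Fin N))), H.Nonempty → Cub H → Sub3 H → Mat3 H → Bip H →
        Q1C (hypC H)) ∧
    -- and for every polynomial there is one such cubic
    (∀ (n : ℕ) (f : MvPolynomial (Fin n) ℂ), f ≠ 0 → constantCoeff f = 0 →
      ∃ (N : ℕ) (H : Finset (Finset (Fin N))), H.Nonempty ∧ Cub H ∧ Sub3 H ∧ Mat3 H ∧ Bip H ∧
        (Q1C (hypC H) → Q1C f)) :=
  ⟨(mainB factsB).1, (mainB factsB).2.1⟩
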