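import Pool.Agent.Helper33.Mono.All
import Pool.Agent.Helper10.Mono.NewtonFan
import Pool.Agent.Helper24.Mono.LinkTri
import Pool.Agent.Helper32.Mono.LinkSum
import Pool.Agent.Helper90.Mono.FanB
import Pool.Agent.Helper80.Mono.IdxProj
import Pool.Agent.Helper80.Mono.CellLat
import Pool.Agent.Helper75.Mono.CellVol
import Pool.Agent.Helper94.Mono.CellSum
import Pool.Agent.Helper77.Mono.ZetaEmpty
import Pool.Agent.Helper71.Mono.CycloEq
import Pool.Agent.Helper83.Mono.ZetaAxis
import Pool.Agent.Helper20.Mono.CellDecomp
import Pool.Agent.Helper20.Mono.Final3
import Pool.Agent.Helper62.MonoS.MainS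

/-!
# The local topological monodromy conjecture for functions which are Newton nondegenerate up to
finitely many points

Let `f ≠ 0` be a polynomial in `n` variables with `f(0) = 0`; there is no hypothesis on the
monomials of `f`.  We allow `f` to be degenerate with respect to its Newton polyhedron, in the
following controlled way.  In the toric modification given by the dual fan, the proper transform of
`f` may be singular at finitely many points of the open orbits of the exceptional divisors of the
compact facets; at each such point, in suitable local coordinates in which the divisor is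
`{x_z = 0}`, the function is `x_z^N h` (`N` the multiplicity of `f` along the divisor), the form
`dx_1 ∧ … ∧ dx_n` becomes `x_z^{ν-1} dx`, and `x_z^N h` is Newton nondegenerate, the restriction of
`h` to the divisor being convenient (and `κ` is the Milnor number of that restriction); or
`x_z^N h` is again degenerate at finitely many points of the same kind, and so on.  The finite list
`p` contains all these points.  For `r = 0` there are no such points and `f` is any Newton
nondegenerate polynomial.  Examples with `r > 0`: `f = f_d + f_{d+k} + …` where the projective
hypersurface `f_d = 0` has isolated singularities (blow up the origin: `N = d`, `ν = n`).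

By the formula of Denef and Loeser, the additivity of Euler characteristics, the theorems of
A'Campo and Varchenko:

* `ZTot f p T Tp` is the local topological zeta function of `f` at the origin: the facet orbit of a
  degenerate divisor meets the proper transform in a hypersurface whose Euler characteristic is the
  nondegenerate one plus `(-1)^(n-1)` times the sum of the Milnor numbers `κ`;
* `zetaTot f p` is the monodromy zeta function of `f` at the origin;
* for a set `K` of coordinates such that `f` vanishes on `ℂ^K`, and for positive weights `b_i`
  linearly independent over `ℚ`, `zetaS (expo f) K b` is, up to a power of `1 - T`, the product of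
  the monodromy zeta functions `ζ_{f,x}` of `f` at the points `x` (for `r > 0`: at the points `x`
  lying on the coordinate hyperplanes) of the slice `x_k = c_k t^{b_k}` (`k ∈ K`, `c_k` general
  constants), `|x_j| < t^{b_j}` (`j ∉ K`), `t → 0`, each with the Euler characteristic of its
  stratum as exponent (A'Campo's formula in the toric modification: the toric divisors lie over
  the coordinate hyperplanes, and the proper transform has multiplicity `1` and contributes only a
  power of `1 - T`), hence its zeros and poles other than `1` are eigenvalues of the monodromy
  at points `x` arbitrarily near the origin (and `1` is the case of an integer `s₀`);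
* `zetaV (projK z (p i).A)`, for `h_i` vanishing on the axis `x_z` of the chart, is the monodromy
  zeta function of `f` at a general point of a curve contained in the zero set (the image of that
  axis).

The map `par` records above which node each point lies: `par i = none` if `p i` is a point of the
toric modification of the Newton polyhedron of `f` at the origin, `par i = some j` if it is a point
of the toric modification of the Newton polyhedron of the chart at `p j` (the theorem holds for
every map `par`).

The theorem: adapted fans exist, and every pole `s₀` of `ZTot` is an integer, or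
`exp(2 π i s₀)` is a zero or a pole of one of the above monodromy zeta functions, or there is a
node `v` such that `N_i s₀` is an integer for some point `p i` above `v`, and Varchenko's
multiplicity of `exp(2 π i s₀)` for the Newton polyhedron at `v` is at most the sum of the Milnor
numbers `κ_i` of these points.  For `r = 0` the last case does not occur.  For `f = f_d + …` as
above that multiplicity is `((d-1)^n - (-1)^n)/d`, so the last case does not occur if the projective
hypersurface `f_d = 0` has total Milnor number less than `((d-1)^n - (-1)^n)/d`.  Finally, if `f`
vanishes on the `k`-th axis but on no coordinate plane containing it, `zetaS (expo f) {k} b` is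
Varchenko's function of `f` at a general point of that axis.
-/

namespace Pool.Agent.Results.MP_aa7fc1_ag.NondegenerateUpToPoints

open Mono

theorem result {n r : ℕ} (f : MvPolynomial (Fin n) ℂ) (p : Fin r → PointData n)
    (par : Fin r → Option (Fin r)) (hf : f ≠ 0) (h0 : f.coeff 0 = 0) (hp : ∀ i, (p i).Good)
    (b : Fin n → ℝ) (hb : ∀ i, 0 < b i) (hlin : LinearIndependent ℚ b) :
    ((∃ T : Fan n, Adapted (expo f) T) ∧ (∀ i, ∃ T : Fan n, Adapted (p i).A T) ∧
    ∀ (T : Fan n) (Tp : Fin r → Fan n), Adapted (expo f) T → (∀ i, Adapted (p i).A (Tp i)) →
    ∀ s₀ : ℂ, (ZTot f p T Tp).denom.eval s₀ = 0 →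
      (∃ k : ℤ, s₀ = k) ∨
      ZeroOrPole (zetaTot f p) (Complex.exp (2 * Real.pi * Complex.I * s₀)) ∨
      (∃ K : Finset (Fin n), K.Nonempty ∧
        (∀ d : Fin n →₀ ℕ, (∀ i, i ∉ K → d i = 0) → f.coeff d = 0) ∧
        ZeroOrPole (zetaS (expo f) K b) (Complex.exp (2 * Real.pi * Complex.I * s₀))) ∨
      (∃ i, (∀ d : ℕ, (p i).h.coeff (Finsupp.single (p i).z d) = 0) ∧
        ZeroOrPole (zetaV (projK (p i).z (p i).A))
          (Complex.exp (2 * Real.pi * Complex.I * s₀))) ∨
      (∃ v, (∃ i, par i = v ∧ ∃ k : ℤ, ((p i).N : ℂ) * s₀ = k) ∧
        multV (nodeA f p v) s₀ ≤ kapSum p par v s₀)) ∧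
    (∀ k : Fin n, (∀ d : ℕ, f.coeff (Finsupp.single k d) = 0) →
      (∀ j, j ≠ k → ∃ d : Fin n →₀ ℕ, f.coeff d ≠ 0 ∧ ∀ l, l ≠ j → l ≠ k → d l = 0) →
      zetaS (expo f) {k} b = zetaV (projK k (expo f))) := by
  have hS := spanT
  have hSC := starCoverT
  have hW := wallT hS hSC
  have hB := bdryT hS hSC
  have hK := kFormula hS hW hB idxPos idxWall idxBdry
  have hL := lowDegree hK
  have hA := algMain hS hSC
  have hBox := boxCount idxPos
  have hMF := multFormula hBox hS
  have hPV := pairVanish hL
  have hCK := classKill hPV
  have hCM := classMain hA hMF hCK
  have hMN := multNonneg hA hMF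
  have hCL := classLimit hL
  have hKZ := killZero volHeight
  have hLW := limitW hCL hKZ
  have hLO := laplaceOrthant hS hW hB idxPos idxWall idxBdry
  have hPr := primalAssembly idxPos hS hK hLO dualLattice (sideDual hS hSC) (sidePrimal hS hSC)
  have hSCt := simplexCount idxPos
  have hNV := nvolSum hSCt
  have hFZ := faceSumZ hNV
  have hFM := faceSumMult hNV
  have hZW := zwIdentity hPr hK
  have hZF := zFormula hZW hFZ hLW
  have hDF := dualFan fanOfGeneric genericHeights coneGen
  have hCV := cellVol cellDecomp hSCt idxProj
  have hCS := cellSum hCV
  refine ⟨LocW.mainS newtonFan fanB hCS cellLat hDF hZF zEval poleLemma hCM hFM cycloLemma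
    linkTri linkSum hMN hZW hNV hL volHeight hA hMF hPV hBox hS hSC f p par hf h0 hp b hb hlin, ?_⟩
  exact (Fin20.final3 fanB hDF hZF zEval poleLemma hCM cycloLemma hCS cellLat zetaEmpty
    (zetaAxis cellLat fanB hCS hFM linkTri linkSum cycloEq) f hf h0 b hb hlin).2.2

end Pool.Agent.Results.MP_aa7fc1_ag.NondegenerateUpToPoints
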