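import Pool.Agent.Helper33.Mono.All
import Pool.Agent.Helper10.Mono.NewtonFan
import Pool.Agent.Helper90.Mono.FanB
import Pool.Agent.Helper80.Mono.IdxProj
import Pool.Agent.Helper75.Mono.CellVol
import Pool.Agent.Helper20.Mono.CellDecomp
import Pool.Agent.Helper49.Comp.K1
import Pool.Agent.Helper86.Comp.K2
import Pool.Agent.Helper89.Comp.K5
import Pool.Agent.Helper49.Comp.K6
import Pool.Agent.Helper11.Comp.K7
import Pool.Agent.Helper70.Comp.K8
import Pool.Agent.Helper85.Comp.P1
import Pool.Agent.Helper89.Comp.P2
import Pool.Agent.Helper33.Comp.P4
import Pool.Agent.Helper37.Comp.P5
import Pool.Agent.Helper22.Comp.P6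
import Pool.Agent.Helper65.Comp.P7
import Pool.Agent.Helper7.Comp.P8
import Pool.Agent.Helper62.Comp.P9
import Pool.Agent.Helper84.Comp.P10
import Pool.Agent.Helper63.Comp.G2a
import Pool.Agent.Helper40.Comp.G2b
import Pool.Agent.Helper56.Comp.G3
import Pool.Agent.Helper32.Comp.G4
import Pool.Agent.Helper14.Comp.G5
import Pool.Agent.Helper5.Comp.G6
import Pool.Agent.Helper53.Comp.G8
import Pool.Agent.Helper5.Comp.C1
import Pool.Agent.Helper53.Comp.C2
import Pool.Agent.Helper28.Comp.C3
import Pool.Agent.Helper28.Comp.C4
import Pool.Agent.Helper28.Comp.C5
import Pool.Agent.Helper37.Comp.C6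
import Pool.Agent.Helper87.Comp.C7
import Pool.Agent.Helper45.Comp.A1
import Pool.Agent.Helper36.Comp.A2
import Pool.Agent.Helper87.Comp.A3
import Pool.Agent.Helper67.Comp.A4
import Pool.Agent.Helper25.Comp.A5
import Pool.Agent.Helper53.Comp.Curve
import Pool.Agent.Helper38.It.U1
import Pool.Agent.Helper73.It.U2
import Pool.Agent.Helper93.It.U3
import Pool.Agent.Helper35.It.K2
import Pool.Agent.Helper32.It.K3
import Pool.Agent.Helper4.It.K4
import Pool.Agent.Helper4.It.K9
import Pool.Agent.Helper4.It.G7
import Pool.Agent.Helper16.It.G11
import Pool.Agent.Helper74.It.T1
import Pool.Agent.Helper80.It.T2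
import Pool.Agent.Helper8.It.T3
import Pool.Agent.Helper35.It.T4
import Pool.Agent.Helper80.It.T5
import Pool.Agent.Helper99.It.T6
import Pool.Agent.Helper8.It.T7
import Pool.Agent.Helper90.It.C1
import Pool.Agent.Helper32.It.C2
import Pool.Agent.Helper35.It.C3
import Pool.Agent.Helper60.It.C4
import Pool.Agent.Helper90.It.C5
import Pool.Agent.Helper4.It.C6
import Pool.Agent.Helper4.It.C7
import Pool.Agent.Helper4.It.Final
import Pool.Agent.Helper17.SD.Class

/-!
# The monodromy conjecture: nondegenerate compositions and restriction to smooth subvarieties

Let `G_1, …, G_N` be germs of holomorphic functions in separate variables, which vanish at the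
origin, and `h, q_1, …, q_r` polynomials in `N` variables, such that `F = h + ∑ l_j q_j` (`l_j` new
variables) is Newton nondegenerate at the origin and such that `V = {q_1(G) = … = q_r(G) = 0}` is
smooth of codimension `r`.  We prove: if the strong form of the local topological monodromy
conjecture holds for `G_1, …, G_N`, then it holds for the germ `f = h(G)|_V`.

For `r = 0` this is the closure under nondegenerate compositions in separate variables (for example
sums, products, suspensions, all polynomials with general coefficients and given exponents).  If
all `G_i` are coordinates, one gets all germs which become Newton nondegenerate after an embedding of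
the ambient space.  In general: all germs `P(G_1, …, G_m)`, where `P` is a polynomial which becomes
nondegenerate after an embedding `u_j = φ_j(y_1, …, y_m)` of `ℂ^m`; for `m = 2` every `P` has this
property.  All this can be iterated, starting from plane curve germs (reduced or not), products of
linear forms (with multiplicities; in particular coordinates), and any other germs for which the
strong form is known.

## The strong form

A germ `g` is given by the list of the strata over the origin of an embedded resolution, with
their numerical data (`List QStratum`).  A component with `N = 0` (it is contained in the zero set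
of the Jacobian determinant only) contributes the constant factor `1 / ν` to all expressions; it is
omitted from the lists, and the weight of a stratum is its Euler characteristic times the product of
these factors.

* `ZQ g e` is the topological zeta function `∑ χ(E_I°) ∏_{i ∈ I} 1 / (N_i s + ν_i)` of Denef and
  Loeser, over the strata with `e ∣ N_i` for all `i ∈ I`; `e = 1` gives the topological zeta
  function of the problem.
* `E` is a set of eigenvalues of the monodromy on the *reduced* cohomology of the Milnor fibres of
  `g` at points of `g = 0` near the origin.
* `SMCQ g E`: for every `e ≥ 1` and every pole `z` of `ZQ g e`, `exp (2 π i z) ∈ E`, unless `e = 1`,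
  `z = -1` and the pole is simple.  So it contains the conjecture for all characters, and also says
  that poles `-1` of order at least two and other integral poles only occur if `1` is an eigenvalue
  on reduced cohomology.  `SMCQ g E` implies that for every pole `z` of the topological zeta
  function `exp (2 π i z)` is an eigenvalue of the monodromy of `g` (for `z = -1`: on `H^0`).

## The class `ResS S`

`S` is any class of pairs `(g, E)` with `GoodQ g` (every stratum lies on a component, and all data
are positive) and `SMCQ g E`.  `ResS S` is the smallest class which contains `S`, the plane curve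
germs and the products of linear forms, and is closed under three operations.

* `comp`: nondegenerate composition in separate variables.  `compStrata` and `compEig` are explained
  in `Pool/Agent/Helper4/It/Defs.lean` and in the first hand-in on compositions: near a point of a
  product of strata `f = P (∏ y_{1j}^{N_{1j}}, …, ∏ y_{kj}^{N_{kj}})`, which is Newton nondegenerate;
  it is resolved by a unimodular fan which refines the dual fan of its Newton polyhedron, and the
  strata over the origin with nonzero Euler characteristic are listed.  `compEig` consists of
  eigenvalues on the reduced cohomology of the Milnor fibres of `f` near the origin, detected on the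
  slices `x_i = c_i t^{b_i}` (`i ∈ K`), `|x_i| < t^{b_i}` (`i ∉ K`) of `P = 0`.
* `equiv`: change of the resolution.  The lists `g` and `g'` have the same zeta functions for every
  `e`; this holds for two resolutions of the same germ, or of right equivalent germs (Denef and
  Loeser).
* `desus`: let `w, l` be two new coordinates.  If the germ `g + w l` (its strata are
  `compStrata (expo (X 0 + X 1 * X 2)) ![g, crdQ, crdQ] T`) belongs to the class, so does `g`, with
  the same eigenvalues.  By the theorem of Sebastiani and Thom the eigenvalues on the reduced
  cohomology of the Milnor fibres of `g` and of `g + w l` near the origin agree.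

The step `desus` uses the formula of Thom–Sebastiani type for the lists, which is proved here
(`Mono.SD.ts_eval`), for all resolutions and all fans: if `Z_e` and `Z'_e` are the zeta functions of
`g` and of `g + w l`, then `(s + 1)^2 Z'_1(s) = Z_1(0) + s (s + 2) Z_1(s + 1)`, and
`Z'_e(s) = Z_e(s + 1)` for `e ≥ 2`.

## The germ `f = h(G)|_V`

`F(G, l) = h(G) + ∑ l_j q_j(G)` belongs to the class, by `comp`.  The functions `w_j = q_j(G)` are
part of a coordinate system, because `V` is smooth, and `h(G) = f + ∑ w_j h_j`; after the change
`l_j ↦ l_j - h_j` of coordinates `F(G, l)` becomes `f + ∑ w_j l_j`.  So `f + ∑ w_j l_j` belongs to the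
class, by `equiv`, and `f` belongs to it, by `desus` (`r` times).
-/

namespace Pool.Agent.Results.MP_aa7fc1_ag.StableCompositionClosure

open Mono Mono.Comp Mono.It

theorem result :
    (∀ S : List QStratum → Set ℂ → Prop, (∀ g E, S g E → GoodQ g ∧ SMCQ g E) →
      ∀ (g : List QStratum) (E : Set ℂ), ResS S g E → GoodQ g ∧ SMCQ g E) ∧
    ∀ {k : ℕ} (P : MvPolynomial (Fin k) ℂ), P ≠ 0 → P.coeff 0 = 0 →
      ∀ (g : Fin k → List QStratum) (I : (i : Fin k) → Fin (g i).length),
        ∃ T : Fan (dimD fun i => ((g i).get (I i)).2),
          Adapted (chartA (expo P) fun i => ((g i).get (I i)).2) T ∧ Unimod T := by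
  have hS := spanT
  have hSC := starCoverT
  have hW := wallT hS hSC
  have hB := bdryT hS hSC
  have hK := kFormula hS hW hB idxPos idxWall idxBdry
  have hL := lowDegree hK
  have hPV := pairVanish hL
  have hLO := laplaceOrthant hS hW hB idxPos idxWall idxBdry
  have hPr := primalAssembly idxPos hS hK hLO dualLattice (sideDual hS hSC) (sidePrimal hS hSC)
  have hSCt := simplexCount idxPos
  have hNV := nvolSum hSCt
  have hZW := zwIdentity hPr hK
  have hDF := dualFan fanOfGeneric genericHeights coneGen
  have hCV := cellVol cellDecomp hSCt idxProj
  have hA := algMainV hS hSC
  have hMF := multFormulaI (boxCountR idxPos) boxCountZ hS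
  have hCM := classMainI hA hMF boxFinite
  have hKT := killThm hPV
  have hCL := classLimitR hL
  have hLW := limitWR hCL killZeroR
  have hNK := nodeKillI hCM hKT
  have hLF := liftFan liftCrd
  have hCF := chartFormula (faceSumR hNV) hLF liftCrd liftIdx liftVol partFrac hZW
  have hCT := chartFormulaT hCF (faceSumT hNV) hLF liftCrd liftIdx liftVol partFrac
    (zwIdentityT hPr) liftLat
  have hEx := extExistsT hCT genDir zrealContT hDF
  have hER := extRec ddsRec genDir
  have hRM := redMulti hER
  have hMo := moebiusV volHeight
  have hMT := moebiusT volHeight
  have hNL := nodeLimI hLW hNK limLemma genDir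
  have hCo := collectT zEvalT hMo hMT hRM
  have hZC := zqComp (zqChart dvdCone)
  have hCl := closure (uniFan (noMix star2)) fanB hEx redExists (coefPoleQ coefPole) hCo hNL hMT
    poleR poleR2 (linkI hCV) hZC
  have hC := curveSMC blowTree blowNum treeIneq vertexRel sameRatio curvePole curveOne rupture
  have hAr := arrSMC arrRank crapo arrRec arrPole
  refine ⟨fun T hT => resS_smc hCT genDir zrealContT zEvalT hZC hCl hC hAr baseQ T hT, ?_⟩
  intro k P hP h0 g I
  obtain ⟨a1, a2, a3⟩ := expo_facts hP h0
  exact uniFan (noMix star2) _ _ (a1.image _)

end Pool.Agent.Results.MP_aa7fc1_ag.StableCompositionClosure
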